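import Pool.Agent.Y598.CG.Sum

/-!
# Cayley graphs with large Weisfeiler-Leman dimension: the main theorem
-/

set_option autoImplicit false
set_option linter.unusedSectionVars false

namespace Pool.Agent.Y598.CG

open Finset Pool.Agent.Y598.IM Pool.Agent.W185.SRG Pool.Agent.Y598.VT SimpleGraph

/-- The main theorem. -/
theorem cg_main (k : ℕ) (hk : 1 ≤ k) :
    ∃ (Γ : Type) (_ : Group Γ) (_ : Fintype Γ) (S S' : Set Γ),
      Fintype.card Γ ≤ 419904 * (k * (Nat.log 2 k + 1)) ∧ S.ncard ≤ 6 ∧ S'.ncard ≤ 6 ∧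
      IsEmpty (mulCayley S ≃g mulCayley S') ∧
      (∀ j ≤ k, WLEquivalent j (mulCayley S) (mulCayley S') ∧
        Indist 2 j (mulCayley S).Adj [] (mulCayley S').Adj []) ∧
      (∀ x y, ∃ φ : (mulCayley S ⊕g mulCayley S) ≃g (mulCayley S ⊕g mulCayley S), φ x = y) ∧
      (¬ ∀ x y, ∃ φ : (mulCayley S ⊕g mulCayley S') ≃g (mulCayley S ⊕g mulCayley S'),
        φ x = y) ∧
      ∀ j ≤ k, WLEquivalent j (mulCayley S ⊕g mulCayley S) (mulCayley S ⊕g mulCayley S') ∧
        Indist 2 j (mulCayley S ⊕g mulCayley S).Adj [] (mulCayley S ⊕g mulCayley S').Adj [] := by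
  obtain ⟨g, hg⟩ : ∃ g, g = Nat.log 3 k := ⟨_, rfl⟩
  obtain ⟨r, hrodd, hr1, hr2⟩ : ∃ r, r % 2 = 1 ∧ g + 7 ≤ r ∧ r ≤ g + 8 := by
    rcases Nat.even_or_odd g with h | h
    · refine ⟨g + 7, ?_, le_rfl, by omega⟩
      obtain ⟨q, hq⟩ := h
      omega
    · refine ⟨g + 8, ?_, by omega, le_rfl⟩
      obtain ⟨q, hq⟩ := h
      omega
  have hr : 3 ≤ r := by omega
  have : NeZero r := ⟨by omega⟩
  have hk2 : k < 3 ^ (g + 1) := by
    rw [hg]
    exact Nat.lt_pow_succ_log_self (by norm_num) k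
  have hk3 : 3 ^ g ≤ k := by
    rw [hg]
    exact Nat.pow_log_le_self 3 (by omega)
  have hgl : g ≤ Nat.log 2 k := by
    rw [hg]
    exact Nat.log_anti_left (by norm_num) (by norm_num)
  have hnon : IsEmpty (cfi (prt hr) (tw false) ≃g cfi (prt hr) (tw true)) := by
    refine ⟨fun φ => ?_⟩
    have h1 := parity φ
    have h2 : ∑ v : Lp r, tw false v = 0 := Finset.sum_eq_zero fun v _ => rfl
    rw [h2, sum_tw hrodd] at h1
    exact zero_ne_one h1
  have hinj : Function.Injective fun b => (cfi (prt hr) (tw b)).Adj := by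
    intro b b' hbb
    have h1 : cfi (prt hr) (tw b) = cfi (prt hr) (tw b') := SimpleGraph.ext hbb
    cases b <;> cases b'
    · rfl
    · rw [← h1] at hnon
      exact (hnon.false (RelIso.refl _)).elim
    · rw [h1] at hnon
      exact (hnon.false (RelIso.refl _)).elim
    · rfl
  have hn : 2 ≤ r * 3 ^ (r - 1) := by
    have : 1 ≤ 3 ^ (r - 1) := Nat.one_le_pow _ _ (by norm_num)
    calc 2 ≤ r * 1 := by omega
      _ ≤ _ := Nat.mul_le_mul_left _ this
  let F := cFam hr hn (inc_LE (r := r) (by omega)) tw hinj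
  let F2 := F.addFixed (cfi (prt hr) (tw false)).Adj
  have hK : 8 * k ≤ 3 ^ (r - 4) := by
    have h1 : 3 ^ (g + 3) ≤ 3 ^ (r - 4) := Nat.pow_le_pow_right (by norm_num) (by omega)
    have h2 : 3 ^ (g + 3) = 9 * 3 ^ (g + 1) := by
      rw [show g + 3 = g + 1 + 2 by omega, pow_add]
      ring
    omega
  have e0 : gph hr (tw false) = mulCayley {z | (gph hr (tw false)).Adj 1 z} :=
    eq_mulCayley _ (gph_mul hr _ (tw_mul false))
  have e1 : gph hr (tw true) = mulCayley {z | (gph hr (tw true)).Adj 1 z} :=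
    eq_mulCayley _ (gph_mul hr _ (tw_mul true))
  have hch : ∀ (K : Type) [Field K], (2 : K) ≠ 0 →
      ((Fintype.card (Ed r → ZMod 2) : ℕ) : K) ≠ 0 := by
    intro K _ h3
    rw [Fintype.card_fun, ZMod.card, Nat.cast_pow]
    exact pow_ne_zero _ (by exact_mod_cast h3)
  refine ⟨Gr r, inferInstance, inferInstanceAs (Fintype (Cv (Lp r))),
    {z | (gph hr (tw false)).Adj 1 z}, {z | (gph hr (tw true)).Adj 1 z}, ?_,
    ncard_conn hr _, ncard_conn hr _, ?_⟩
  · show Fintype.card (Cv (Lp r)) ≤ _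
    rw [Fintype.card_prod, Fintype.card_prod (ZMod 2), ZMod.card, card_Lp]
    calc 2 * (r * 3 ^ r) * (2 * 2) = 8 * (r * 3 ^ r) := by ring
      _ ≤ 8 * ((g + 8) * 3 ^ (g + 8)) := by
        refine Nat.mul_le_mul_left _ (Nat.mul_le_mul hr2 ?_)
        exact Nat.pow_le_pow_right (by norm_num) hr2
      _ = 52488 * ((g + 8) * 3 ^ g) := by
        rw [pow_add]
        ring
      _ ≤ 52488 * (8 * (Nat.log 2 k + 1) * k) := by
        refine Nat.mul_le_mul_left _ (Nat.mul_le_mul (by omega) hk3)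
      _ = _ := by ring
  have htr := sum_transitive {z : Gr r | (gph hr (tw false)).Adj 1 z}
  rw [← e0, ← e1]
  rw [← e0] at htr
  refine ⟨hnon, fun j hj => ⟨?_, ?_⟩, htr, ?_, fun j hj => ⟨?_, ?_⟩⟩
  · refine F.wl (fun b => cfi (prt hr) (tw b)) (fun _ => rfl) false true j ?_
    show 2 * (j + 1) ≤ 3 ^ (r - 4)
    omega
  · obtain ⟨M, hM⟩ := F.bot_sol false true
    refine F.indist (p := 2) (k := j) (s0 := 0) ?_ ?_ (v := []) (M := M) ?_ hM
    · exact_mod_cast hch
    · show 0 + 4 * (2 * j) ≤ 3 ^ (r - 4)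
      omega
    · show F.size ⊥ ≤ 0
      rw [F.size_bot]
  · intro h
    obtain ⟨φ, hφ⟩ := h (Sum.inl 1) (Sum.inr 1)
    exact no_swap (G := gph hr (tw false)) (H := gph hr (tw true))
      (cfi_conn hr (tw false)) hnon 1 1 φ hφ
  · refine F2.wl (fun b => cfi (prt hr) (tw false) ⊕g cfi (prt hr) (tw b))
      (fun b => (sum_adj (cfi (prt hr) (tw false)) (cfi (prt hr) (tw b))).symm) false true j ?_
    show 2 * (j + 1) ≤ 3 ^ (r - 4)
    omega
  · obtain ⟨M, hM⟩ := F2.bot_sol false true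
    have h5 := F2.indist (p := 2) (k := j) (s0 := 0) (by exact_mod_cast hch) (by
      show 0 + 4 * (2 * j) ≤ 3 ^ (r - 4)
      omega) (v := []) (M := M) (b := false) (b' := true) (by
      show F2.size ⊥ ≤ 0
      rw [F2.size_bot]) hM
    have h6 : F2.G false = (gph hr (tw false) ⊕g gph hr (tw false)).Adj :=
      (sum_adj (cfi (prt hr) (tw false)) (cfi (prt hr) (tw false))).symm
    have h7 : F2.G true = (gph hr (tw false) ⊕g gph hr (tw true)).Adj :=
      (sum_adj (cfi (prt hr) (tw false)) (cfi (prt hr) (tw true))).symm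
    rw [← h6, ← h7]
    exact h5

end Pool.Agent.Y598.CG
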