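import Pool.Agent.Y598.VT.Sys

/-!
# A group of order `2 r 3 ^ r` with three involutions and its cubic Cayley graph
-/

set_option autoImplicit false
set_option linter.unusedSectionVars false

namespace Pool.Agent.Y598.CG

open Finset Pool.Agent.Y598.VT

/-- The strings with a position. -/
abbrev Ld (r : ℕ) : Type := (ZMod r → ZMod 3) × ZMod r

/-- The group: an extension of the wreath product of `ZMod 3` and `ZMod r` by an automorphism of
order two. -/
@[ext] structure Lp (r : ℕ) where
  x : ZMod r → ZMod 3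
  i : ZMod r
  s : Bool

namespace Lp

variable {r : ℕ}

/-- The elements as triples. -/
def equiv : Lp r ≃ Ld r × Bool where
  toFun g := ((g.x, g.i), g.s)
  invFun q := ⟨q.1.1, q.1.2, q.2⟩
  left_inv _ := rfl
  right_inv _ := rfl

noncomputable instance : DecidableEq (Lp r) := Classical.decEq _

instance [NeZero r] : Fintype (Lp r) := Fintype.ofEquiv _ equiv.symm

instance : Mul (Lp r) where
  mul g h := ⟨fun l => if g.s then g.x l - h.x (g.i - l) else g.x l + h.x (l - g.i),
    if g.s then g.i - h.i else g.i + h.i, xor g.s h.s⟩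

instance : One (Lp r) where
  one := ⟨fun _ => 0, 0, false⟩

instance : Inv (Lp r) where
  inv g := ⟨fun l => if g.s then g.x (g.i - l) else - g.x (l + g.i), if g.s then g.i else -g.i,
    g.s⟩

theorem mul_def (g h : Lp r) : g * h =
    ⟨fun l => if g.s then g.x l - h.x (g.i - l) else g.x l + h.x (l - g.i),
      if g.s then g.i - h.i else g.i + h.i, xor g.s h.s⟩ := rfl

theorem one_def : (1 : Lp r) = ⟨fun _ => 0, 0, false⟩ := rfl

theorem inv_def (g : Lp r) : g⁻¹ = ⟨fun l => if g.s then g.x (g.i - l) else - g.x (l + g.i),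
    if g.s then g.i else -g.i, g.s⟩ := rfl

instance : Group (Lp r) := Group.ofLeftAxioms
  (by
    rintro ⟨x, i, s⟩ ⟨y, j, s'⟩ ⟨z, k, s''⟩
    rw [mul_def, mul_def, mul_def, mul_def]
    cases s <;> cases s'
    · refine Lp.ext (funext fun l => ?_) ?_ ?_
      · show x l + y (l - i) + z (l - (i + j)) = x l + (y (l - i) + z (l - i - j))
        rw [sub_sub, add_assoc]
      · exact add_assoc i j k
      · cases s'' <;> rfl
    · refine Lp.ext (funext fun l => ?_) ?_ ?_
      · show x l + y (l - i) - z (i + j - l) = x l + (y (l - i) - z (j - (l - i)))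
        have h1 : j - (l - i) = i + j - l := by ring
        rw [h1]
        ring
      · show i + j - k = i + (j - k)
        ring
      · cases s'' <;> rfl
    · refine Lp.ext (funext fun l => ?_) ?_ ?_
      · show x l - y (i - l) - z (i - j - l) = x l - (y (i - l) + z (i - l - j))
        have h1 : i - l - j = i - j - l := by ring
        rw [h1]
        ring
      · show i - j - k = i - (j + k)
        ring
      · cases s'' <;> rfl
    · refine Lp.ext (funext fun l => ?_) ?_ ?_
      · show x l - y (i - l) + z (l - (i - j)) = x l - (y (i - l) - z (j - (i - l)))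
        have h1 : j - (i - l) = l - (i - j) := by ring
        rw [h1]
        ring
      · show i - j + k = i - (j - k)
        ring
      · cases s'' <;> rfl)
  (by
    rintro ⟨x, i, s⟩
    rw [mul_def, one_def]
    refine Lp.ext (funext fun l => ?_) ?_ ?_
    · show 0 + x (l - 0) = x l
      rw [zero_add, sub_zero]
    · show 0 + i = i
      rw [zero_add]
    · cases s <;> rfl)
  (by
    rintro ⟨x, i, s⟩
    rw [mul_def, inv_def, one_def]
    cases s
    · refine Lp.ext (funext fun l => ?_) ?_ rfl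
      · show -x (l + i) + x (l - -i) = 0
        rw [sub_neg_eq_add, neg_add_cancel]
      · show -i + i = 0
        rw [neg_add_cancel]
    · refine Lp.ext (funext fun l => ?_) ?_ rfl
      · show x (i - l) - x (i - l) = 0
        rw [sub_self]
      · show i - i = 0
        rw [sub_self])

end Lp

variable {r : ℕ} [NeZero r]

/-- The vectors with at most one nonzero entry. -/
def un (i : ZMod r) (c : ZMod 3) : ZMod r → ZMod 3 := Pi.single i c

theorem un_self (i : ZMod r) (c : ZMod 3) : un i c i = c := Pi.single_eq_same _ _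

theorem un_ne {i j : ZMod r} (h : j ≠ i) (c : ZMod 3) : un i c j = 0 := Pi.single_eq_of_ne h _

theorem un_zero (i : ZMod r) : un i 0 = 0 := Pi.single_zero _

theorem un_add (i : ZMod r) (c d : ZMod 3) : un i (c + d) = un i c + un i d := Pi.single_add _ _ _

/-- The involutions. -/
def inv3 (j : Fin 3) : Lp r :=
  if j = 0 then ⟨0, 0, true⟩ else if j = 1 then ⟨un 0 1, 0, true⟩ else ⟨0, 1, true⟩

theorem inv3_zero : (inv3 0 : Lp r) = ⟨0, 0, true⟩ := rfl
theorem inv3_one : (inv3 1 : Lp r) = ⟨un 0 1, 0, true⟩ := rfl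
theorem inv3_two : (inv3 2 : Lp r) = ⟨0, 1, true⟩ := rfl

theorem fin3 (j : Fin 3) : j = 0 ∨ j = 1 ∨ j = 2 := by omega

theorem inv3_mul (j : Fin 3) : (inv3 j : Lp r) * inv3 j = 1 := by
  rcases fin3 j with rfl | rfl | rfl
  · rw [inv3_zero, Lp.mul_def, Lp.one_def]
    refine Lp.ext (funext fun l => ?_) ?_ rfl
    · show (0 : ZMod 3) - 0 = 0
      rfl
    · show (0 : ZMod r) - 0 = 0
      rw [sub_zero]
  · rw [inv3_one, Lp.mul_def, Lp.one_def]
    refine Lp.ext (funext fun l => ?_) ?_ rfl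
    · show un 0 1 l - un 0 1 (0 - l) = 0
      by_cases hl : l = 0
      · rw [hl, sub_self, sub_self]
      · rw [un_ne hl, un_ne, sub_zero]
        rw [zero_sub]
        exact neg_ne_zero.2 hl
    · show (0 : ZMod r) - 0 = 0
      rw [sub_zero]
  · rw [inv3_two, Lp.mul_def, Lp.one_def]
    refine Lp.ext (funext fun l => ?_) ?_ rfl
    · show (0 : ZMod 3) - 0 = 0
      rfl
    · show (1 : ZMod r) - 1 = 0
      rw [sub_self]

/-- The neighbours of a node. -/
def nb (v : Lp r) (j : Fin 3) : Lp r := v * inv3 j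

theorem nb_nb (v : Lp r) (j : Fin 3) : nb (nb v j) j = v := by
  unfold nb
  rw [mul_assoc, inv3_mul, mul_one]

theorem nb_s (v : Lp r) (j : Fin 3) : (nb v j).s = !v.s := by
  unfold nb
  rw [Lp.mul_def]
  rcases fin3 j with rfl | rfl | rfl
  · rw [inv3_zero]
    cases v.s <;> rfl
  · rw [inv3_one]
    cases v.s <;> rfl
  · rw [inv3_two]
    cases v.s <;> rfl

theorem nb_ne (v : Lp r) (j : Fin 3) : nb v j ≠ v := by
  intro h
  have h1 := congrArg Lp.s h
  rw [nb_s] at h1
  revert h1
  cases v.s <;> decide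

theorem nb_f0 (x : ZMod r → ZMod 3) (i : ZMod r) : nb ⟨x, i, false⟩ 0 = ⟨x, i, true⟩ := by
  unfold nb
  rw [inv3_zero, Lp.mul_def]
  refine Lp.ext (funext fun l => ?_) ?_ rfl
  · show x l + 0 = x l
    rw [add_zero]
  · show i + 0 = i
    rw [add_zero]

theorem nb_f1 (x : ZMod r → ZMod 3) (i : ZMod r) :
    nb ⟨x, i, false⟩ 1 = ⟨x + un i 1, i, true⟩ := by
  unfold nb
  rw [inv3_one, Lp.mul_def]
  refine Lp.ext (funext fun l => ?_) ?_ rfl
  · show x l + un 0 1 (l - i) = x l + un i 1 l
    by_cases hl : l = i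
    · rw [hl, sub_self, un_self, un_self]
    · rw [un_ne hl, un_ne (sub_ne_zero.2 hl)]
  · show i + 0 = i
    rw [add_zero]

theorem nb_f2 (x : ZMod r → ZMod 3) (i : ZMod r) :
    nb ⟨x, i, false⟩ 2 = ⟨x, i + 1, true⟩ := by
  unfold nb
  rw [inv3_two, Lp.mul_def]
  refine Lp.ext (funext fun l => ?_) rfl rfl
  show x l + 0 = x l
  rw [add_zero]

/-- The edges. -/
abbrev Ed (r : ℕ) : Type := Ld r × Fin 3

/-- The edge at a port. -/
def ed (v : Lp r) (j : Fin 3) : Ed r :=
  ((if v.s then (nb v j).x else v.x, if v.s then (nb v j).i else v.i), j)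

theorem ed_f (x : ZMod r → ZMod 3) (i : ZMod r) (j : Fin 3) :
    ed ⟨x, i, false⟩ j = ((x, i), j) := rfl

theorem ed_t (v : Lp r) (hv : v.s = true) (j : Fin 3) : ed v j = (((nb v j).x, (nb v j).i), j) := by
  unfold ed
  rw [hv]
  rfl

theorem ed_nb (v : Lp r) (j : Fin 3) : ed (nb v j) j = ed v j := by
  cases hv : v.s
  · rw [ed_t (nb v j) (by rw [nb_s, hv]; rfl), nb_nb]
    unfold ed
    rw [hv]
    rfl
  · rw [ed_t v hv]
    unfold ed
    rw [nb_s, hv]
    rfl

theorem ed_inj (v : Lp r) {j l : Fin 3} (h : ed v j = ed v l) : j = l := congrArg Prod.snd h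

/-- The two ends of an edge. -/
theorem ed_eq_iff {v w : Lp r} {j l : Fin 3} : ed w l = ed v j ↔ l = j ∧ (w = v ∨ w = nb v j) := by
  constructor
  · intro h
    have hl : l = j := congrArg Prod.snd h
    subst hl
    refine ⟨rfl, ?_⟩
    have key : ∀ a b : Lp r, a.s = false → b.s = false → ed a l = ed b l → a = b := by
      rintro ⟨x, i, s⟩ ⟨y, k, s'⟩ hs hs' h
      simp only at hs hs'
      subst hs hs'
      rw [ed_f, ed_f] at h
      have h1 := (Prod.mk.inj h).1
      obtain ⟨rfl, rfl⟩ := Prod.mk.inj h1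
      rfl
    cases hv : v.s <;> cases hw : w.s
    · exact Or.inl (key _ _ hw hv h)
    · right
      have h1 : nb w l = v := key _ _ (by rw [nb_s, hw]; rfl) hv (by rw [ed_nb, h])
      rw [← h1, nb_nb]
    · right
      exact key _ _ hw (by rw [nb_s, hv]; rfl) (by rw [ed_nb, h])
    · left
      have h1 : nb w l = nb v l := key _ _ (by rw [nb_s, hw]; rfl) (by rw [nb_s, hv]; rfl)
        (by rw [ed_nb, ed_nb, h])
      rw [← nb_nb w l, h1, nb_nb]
  · rintro ⟨rfl, rfl | rfl⟩
    · rfl
    · exact ed_nb _ _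

/-- The incidence matrix. -/
def inc (v : Lp r) (e : Ed r) : ZMod 2 := if ed v e.2 = e then 1 else 0

theorem inc_ed (v w : Lp r) (j : Fin 3) : inc w (ed v j) = if w = v ∨ w = nb v j then 1 else 0 := by
  unfold inc
  refine if_congr ?_ rfl rfl
  show ed w j = ed v j ↔ _
  rw [ed_eq_iff]
  exact ⟨fun h => h.2, fun h => ⟨rfl, h⟩⟩

theorem inc_sum (v : Lp r) (M : Ed r → ZMod 2) : ∑ e, inc v e * M e = ∑ j, M (ed v j) := by
  unfold inc
  rw [Fintype.sum_prod_type, Finset.sum_comm]
  refine Finset.sum_congr rfl fun j _ => ?_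
  rw [Finset.sum_eq_single (ed v j).1]
  · show (if ed v j = ed v j then (1 : ZMod 2) else 0) * M (ed v j) = _
    rw [if_pos rfl, one_mul]
  · intro e _ he
    rw [if_neg (fun h => he (congrArg Prod.fst h).symm), zero_mul]
  · intro h
    exact absurd (Finset.mem_univ _) h

theorem Zr_inc (t : Lp r → ZMod 2) (v : Lp r) (j : Fin 3) :
    Zr inc t (ed v j) = t v + t (nb v j) := by
  unfold Zr
  simp only [inc_ed]
  have h1 : ∀ w : Lp r, t w * (if w = v ∨ w = nb v j then 1 else 0) =
      if w = v ∨ w = nb v j then t w else 0 := by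
    intro w
    rw [mul_ite, mul_one, mul_zero]
  simp only [h1]
  rw [← Finset.sum_filter]
  have h3 : (Finset.univ.filter fun w : Lp r => w = v ∨ w = nb v j) = {v, nb v j} := by
    ext w
    rw [Finset.mem_filter, Finset.mem_insert, Finset.mem_singleton]
    exact ⟨fun h => h.2, fun h => ⟨Finset.mem_univ _, h⟩⟩
  rw [h3, Finset.sum_pair (nb_ne v j).symm]

theorem eq_nb_of {t : Lp r → ZMod 2} {v : Lp r} {j : Fin 3} (h : Zr inc t (ed v j) = 0) :
    t v = t (nb v j) := by
  rw [Zr_inc] at h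
  have h2 : ∀ a b : ZMod 2, a + b = 0 → a = b := by decide
  exact h2 _ _ h

/-! ### The isoperimetric inequality -/

/-- Mixed strings: from the position `i` on the first `s` entries are those of `y`. -/
def mix (i : ZMod r) (s : ℕ) (x y : ZMod r → ZMod 3) (l : ZMod r) : ZMod 3 :=
  if (l - i).val < s then y l else x l

theorem mix_zero (i : ZMod r) (x y : ZMod r → ZMod 3) : mix i 0 x y = x := by
  funext l
  exact if_neg (Nat.not_lt_zero _)

theorem mix_r (i : ZMod r) (x y : ZMod r → ZMod 3) : mix i r x y = y := by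
  funext l
  exact if_pos (ZMod.val_lt _)

theorem mix_succ (i : ZMod r) (s : ℕ) (x y : ZMod r → ZMod 3) :
    ∃ c, mix i (s + 1) x y = mix i s x y + un (i + (s : ZMod r)) c := by
  refine ⟨mix i (s + 1) x y (i + (s : ZMod r)) - mix i s x y (i + (s : ZMod r)), ?_⟩
  funext l
  by_cases hl : l = i + (s : ZMod r)
  · rw [hl, Pi.add_apply, un_self]
    ring
  · rw [Pi.add_apply, un_ne hl, add_zero]
    unfold mix
    have h1 : (l - i).val ≠ s := by
      intro h
      apply hl
      rw [← h, ZMod.natCast_zmod_val]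
      ring
    by_cases h2 : (l - i).val < s
    · rw [if_pos h2, if_pos (by omega)]
    · rw [if_neg h2, if_neg (by omega)]

theorem mix_inj {i : ZMod r} {s : ℕ} {x y x' y' : ZMod r → ZMod 3}
    (h1 : mix i s x y = mix i s x' y') (h2 : mix i s y x = mix i s y' x') : x = x' ∧ y = y' := by
  have h3 : ∀ l, x l = x' l ∧ y l = y' l := by
    intro l
    have e1 := congrFun h1 l
    have e2 := congrFun h2 l
    unfold mix at e1 e2
    by_cases h : (l - i).val < s
    · rw [if_pos h, if_pos h] at e1 e2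
      exact ⟨e2, e1⟩
    · rw [if_neg h, if_neg h] at e1 e2
      exact ⟨e1, e2⟩
  exact ⟨funext fun l => (h3 l).1, funext fun l => (h3 l).2⟩

open Classical in
/-- The places near the edges in `W`. -/
noncomputable def bad (W : Finset (Ed r)) : Finset (Ld r) := Finset.univ.filter fun v : Ld r =>
  ∃ (c : ZMod 3) (j : Fin 3), ((v.1 + un v.2 c, v.2), j) ∈ W

theorem mem_bad {W : Finset (Ed r)} {v : Ld r} :
    v ∈ bad W ↔ ∃ (c : ZMod 3) (j : Fin 3), ((v.1 + un v.2 c, v.2), j) ∈ W := by
  simp only [bad, Finset.mem_filter, Finset.mem_univ, true_and]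

theorem card_bad (W : Finset (Ed r)) : (bad W).card ≤ 3 * W.card := by
  classical
  have h1 : bad W ⊆ (W ×ˢ (Finset.univ : Finset (ZMod 3))).image
      fun q => (q.1.1.1 - un q.1.1.2 q.2, q.1.1.2) := by
    rintro ⟨x, i⟩ hv
    obtain ⟨c, j, h⟩ := mem_bad.1 hv
    refine Finset.mem_image.2 ⟨(((x + un i c, i), j), c), Finset.mem_product.2
      ⟨h, Finset.mem_univ _⟩, ?_⟩
    show (x + un i c - un i c, i) = (x, i)
    rw [add_sub_cancel_right]
  refine (Finset.card_le_card h1).trans (Finset.card_image_le.trans ?_)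
  rw [Finset.card_product, Finset.card_univ, ZMod.card, mul_comm]

theorem step_eq {t : Lp r → ZMod 2} {W : Finset (Ed r)} (hW : ∀ e, e ∉ W → Zr inc t e = 0)
    {x : ZMod r → ZMod 3} {l : ZMod r} (h : (x, l) ∉ bad W) :
    t ⟨x, l, false⟩ = t ⟨x, l, true⟩ ∧
      ∀ c, t ⟨x, l, true⟩ = t ⟨x + un l c, l + 1, true⟩ := by
  have h1 : ∀ (c : ZMod 3) (j : Fin 3), ((x + un l c, l), j) ∉ W := by
    intro c j hc
    exact h (mem_bad.2 ⟨c, j, hc⟩)
  have h2 : ∀ (c : ZMod 3) (j : Fin 3), t ⟨x + un l c, l, false⟩ =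
      t (nb ⟨x + un l c, l, false⟩ j) := by
    intro c j
    refine eq_nb_of (hW _ ?_)
    rw [ed_f]
    exact h1 c j
  have a0 : ∀ c, t ⟨x + un l c, l, false⟩ = t ⟨x + un l c, l, true⟩ := by
    intro c
    have := h2 c 0
    rwa [nb_f0] at this
  have a1 : ∀ c, t ⟨x + un l c, l, false⟩ = t ⟨x + un l (c + 1), l, true⟩ := by
    intro c
    have := h2 c 1
    rw [nb_f1] at this
    rw [un_add, ← add_assoc]
    exact this
  have a2 : ∀ c, t ⟨x + un l c, l, false⟩ = t ⟨x + un l c, l + 1, true⟩ := by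
    intro c
    have := h2 c 2
    rwa [nb_f2] at this
  have b1 : ∀ c, t ⟨x + un l (c + 1), l, true⟩ = t ⟨x + un l c, l, true⟩ := by
    intro c
    rw [← a1, a0]
  have b2 : ∀ c, t ⟨x + un l c, l, true⟩ = t ⟨x, l, true⟩ := by
    have e0 : t ⟨x + un l 0, l, true⟩ = t ⟨x, l, true⟩ := by
      rw [un_zero, add_zero]
    have e1 : t ⟨x + un l 1, l, true⟩ = t ⟨x, l, true⟩ := by
      have := b1 0
      rw [zero_add, e0] at this
      exact this
    have e2 : t ⟨x + un l 2, l, true⟩ = t ⟨x, l, true⟩ := by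
      have := b1 1
      rw [e1] at this
      exact this
    intro c
    have hc : c = 0 ∨ c = 1 ∨ c = 2 := by
      revert c
      decide
    rcases hc with rfl | rfl | rfl
    · exact e0
    · exact e1
    · exact e2
  constructor
  · have := a0 0
    rwa [un_zero, add_zero] at this
  · intro c
    rw [← b2 c, ← a0, a2]

theorem chain_mix {t : Lp r → ZMod 2} {W : Finset (Ed r)} (hW : ∀ e, e ∉ W → Zr inc t e = 0)
    (x y : ZMod r → ZMod 3) (i : ZMod r)
    (h : ∀ s, s < r → (mix i s x y, i + (s : ZMod r)) ∉ bad W) :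
    t ⟨x, i, true⟩ = t ⟨y, i, true⟩ := by
  have key : ∀ s : ℕ, s ≤ r → t ⟨x, i, true⟩ = t ⟨mix i s x y, i + (s : ZMod r), true⟩ := by
    intro s
    induction s with
    | zero =>
      intro _
      rw [mix_zero, Nat.cast_zero, add_zero]
    | succ s ih =>
      intro hs
      obtain ⟨c, hc⟩ := mix_succ i s x y
      rw [ih (by omega), (step_eq hW (h s (by omega))).2 c, hc]
      push_cast
      rw [add_assoc]
  have h1 := key r le_rfl
  rw [mix_r, ZMod.natCast_self, add_zero] at h1
  exact h1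

theorem chain_cyc {t : Lp r → ZMod 2} {W : Finset (Ed r)} (hW : ∀ e, e ∉ W → Zr inc t e = 0)
    (y : ZMod r → ZMod 3) (i j : ZMod r)
    (h : ∀ s, s < r → (y, i + (s : ZMod r)) ∉ bad W) : t ⟨y, i, true⟩ = t ⟨y, j, true⟩ := by
  have key : ∀ s : ℕ, s ≤ r → t ⟨y, i, true⟩ = t ⟨y, i + (s : ZMod r), true⟩ := by
    intro s
    induction s with
    | zero =>
      intro _
      rw [Nat.cast_zero, add_zero]
    | succ s ih =>
      intro hs
      have h2 := (step_eq hW (h s (by omega))).2 0
      rw [un_zero, add_zero] at h2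
      rw [ih (by omega), h2]
      push_cast
      rw [add_assoc]
  have h1 := key (j - i).val (ZMod.val_lt _).le
  rw [ZMod.natCast_zmod_val] at h1
  rw [h1]
  congr 2
  ring

theorem zmod2_ne {a : ZMod 2} (h : a ≠ 0) : a = 1 := by
  revert a
  decide

/-- If there are no bad places on the way, then the values are equal. -/
theorem all_eq {t : Lp r → ZMod 2} {W : Finset (Ed r)} (hW : ∀ e, e ∉ W → Zr inc t e = 0)
    (u v : Lp r) (h1 : ∀ s, s < r → (mix u.i s u.x v.x, u.i + (s : ZMod r)) ∉ bad W)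
    (h2 : ∀ s, s < r → (v.x, u.i + (s : ZMod r)) ∉ bad W) : t u = t v := by
  obtain ⟨x, i, a⟩ := u
  obtain ⟨y, j, b⟩ := v
  simp only at h1 h2
  have hr : 0 < r := Nat.pos_of_ne_zero (NeZero.ne r)
  have e1 : t ⟨x, i, a⟩ = t ⟨x, i, true⟩ := by
    cases a
    · have h3 := h1 0 hr
      rw [mix_zero, Nat.cast_zero, add_zero] at h3
      exact (step_eq hW h3).1
    · rfl
  have e2 : t ⟨y, j, b⟩ = t ⟨y, j, true⟩ := by
    cases b
    · have h3 := h2 (j - i).val (ZMod.val_lt _)
      rw [ZMod.natCast_zmod_val] at h3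
      have h4 : i + (j - i) = j := by ring
      rw [h4] at h3
      exact (step_eq hW h3).1
    · rfl
  rw [e1, e2, chain_mix hW x y i h1, chain_cyc hW y i j h2]

theorem card_Ld : Fintype.card (Ld r) = r * 3 ^ r := by
  rw [Fintype.card_prod, Fintype.card_fun, ZMod.card, ZMod.card, mul_comm]

theorem card_Lp : Fintype.card (Lp r) = 2 * (r * 3 ^ r) := by
  rw [Fintype.card_congr Lp.equiv, Fintype.card_prod, card_Ld, Fintype.card_bool, mul_comm]

/-- **The isoperimetric inequality.** -/
theorem isoper {t : Lp r → ZMod 2} {W : Finset (Ed r)} (hW : ∀ e, e ∉ W → Zr inc t e = 0) :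
    (supp t).card * (Fintype.card (Lp r) - (supp t).card) ≤
      24 * r * Fintype.card (Ld r) * W.card := by
  classical
  let A : ℕ → Finset (Lp r × Lp r) := fun s => Finset.univ.filter fun p =>
    (mix p.1.i s p.1.x p.2.x, p.1.i + (s : ZMod r)) ∈ bad W
  let B : ℕ → Finset (Lp r × Lp r) := fun s => Finset.univ.filter fun p =>
    (p.2.x, p.1.i + (s : ZMod r)) ∈ bad W
  have hcard : ((bad W ×ˢ (Finset.univ : Finset (Ld r))) ×ˢ
      (Finset.univ : Finset (Bool × Bool))).card = 4 * ((bad W).card * Fintype.card (Ld r)) := by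
    rw [Finset.card_product, Finset.card_product, Finset.card_univ, Finset.card_univ,
      Fintype.card_prod Bool, Fintype.card_bool]
    ring
  have hA : ∀ s, (A s).card ≤ 4 * ((bad W).card * Fintype.card (Ld r)) := by
    intro s
    rw [← hcard]
    refine Finset.card_le_card_of_injOn (fun p =>
      (((mix p.1.i s p.1.x p.2.x, p.1.i + (s : ZMod r)), (mix p.1.i s p.2.x p.1.x, p.2.i)),
        (p.1.s, p.2.s))) ?_ ?_
    · intro p hp
      refine Finset.mem_coe.2 (Finset.mem_product.2 ⟨Finset.mem_product.2 ⟨?_,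
        Finset.mem_univ _⟩, Finset.mem_univ _⟩)
      exact (Finset.mem_filter.1 hp).2
    · rintro ⟨⟨x, i, a⟩, ⟨y, j, b⟩⟩ _ ⟨⟨x', i', a'⟩, ⟨y', j', b'⟩⟩ _ h
      simp only [Prod.mk.injEq] at h
      obtain ⟨⟨⟨h1, h2⟩, h3, h4⟩, h5, h6⟩ := h
      have h7 : i = i' := add_right_cancel h2
      subst h7
      obtain ⟨rfl, rfl⟩ := mix_inj h1 h3
      subst h4 h5 h6
      rfl
  have hB : ∀ s, (B s).card ≤ 4 * ((bad W).card * Fintype.card (Ld r)) := by
    intro s
    rw [← hcard]
    refine Finset.card_le_card_of_injOn (fun p =>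
      (((p.2.x, p.1.i + (s : ZMod r)), (p.1.x, p.2.i)), (p.1.s, p.2.s))) ?_ ?_
    · intro p hp
      refine Finset.mem_coe.2 (Finset.mem_product.2 ⟨Finset.mem_product.2 ⟨?_,
        Finset.mem_univ _⟩, Finset.mem_univ _⟩)
      exact (Finset.mem_filter.1 hp).2
    · rintro ⟨⟨x, i, a⟩, ⟨y, j, b⟩⟩ _ ⟨⟨x', i', a'⟩, ⟨y', j', b'⟩⟩ _ h
      simp only [Prod.mk.injEq] at h
      obtain ⟨⟨⟨h1, h2⟩, h3, h4⟩, h5, h6⟩ := h
      have h7 : i = i' := add_right_cancel h2
      subst h7 h1 h3 h4 h5 h6
      rfl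
  have hsub : supp t ×ˢ (supp t)ᶜ ⊆
      (Finset.range r).biUnion A ∪ (Finset.range r).biUnion B := by
    rintro ⟨u, v⟩ hp
    obtain ⟨h1, h2⟩ := Finset.mem_product.1 hp
    have h3 : t u ≠ 0 := mem_supp.1 h1
    have h4 : t v = 0 := by
      by_contra h
      exact Finset.mem_compl.1 h2 (mem_supp.2 h)
    rw [Finset.mem_union, Finset.mem_biUnion, Finset.mem_biUnion]
    by_contra hcon
    push Not at hcon
    obtain ⟨hc1, hc2⟩ := hcon
    have h5 := all_eq hW u v (fun s hs hb => hc1 s (Finset.mem_range.2 hs)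
      (Finset.mem_filter.2 ⟨Finset.mem_univ _, hb⟩)) (fun s hs hb => hc2 s
      (Finset.mem_range.2 hs) (Finset.mem_filter.2 ⟨Finset.mem_univ _, hb⟩))
    exact h3 (h5.trans h4)
  have h1 := Finset.card_le_card hsub
  rw [Finset.card_product, Finset.card_compl] at h1
  have h2 := Finset.card_union_le ((Finset.range r).biUnion A) ((Finset.range r).biUnion B)
  have h3 : ((Finset.range r).biUnion A).card ≤
      r * (4 * ((bad W).card * Fintype.card (Ld r))) := by
    refine Finset.card_biUnion_le.trans ?_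
    refine (Finset.sum_le_card_nsmul _ _ _ fun s _ => hA s).trans ?_
    rw [Finset.card_range, smul_eq_mul]
  have h4 : ((Finset.range r).biUnion B).card ≤
      r * (4 * ((bad W).card * Fintype.card (Ld r))) := by
    refine Finset.card_biUnion_le.trans ?_
    refine (Finset.sum_le_card_nsmul _ _ _ fun s _ => hB s).trans ?_
    rw [Finset.card_range, smul_eq_mul]
  have h5 := card_bad W
  calc _ ≤ _ := h1
    _ ≤ _ := h2
    _ ≤ _ := Nat.add_le_add h3 h4
    _ = 8 * r * Fintype.card (Ld r) * (bad W).card := by ring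
    _ ≤ 8 * r * Fintype.card (Ld r) * (3 * W.card) := Nat.mul_le_mul_left _ h5
    _ = _ := by ring

/-- The system has no small cuts. -/
theorem inc_LE (hr : 4 ≤ r) : LE (r * 3 ^ (r - 1)) (3 ^ (r - 4)) (inc (r := r)) := by
  have hN : Fintype.card (Lp r) = 6 * (r * 3 ^ (r - 1)) := by
    rw [card_Lp]
    obtain ⟨q, hq⟩ := Nat.exists_eq_add_of_le' (show 1 ≤ r by omega)
    have h1 : r - 1 = q := by omega
    rw [h1]
    conv_lhs => rw [hq, pow_add]
    rw [hq]
    ring
  have hL : Fintype.card (Ld r) = 3 * (r * 3 ^ (r - 1)) := by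
    have h1 := card_Lp (r := r)
    rw [card_Ld]
    rw [hN] at h1
    omega
  have hpos : 0 < r * 3 ^ (r - 1) := by positivity
  constructor
  · intro t W h1 h2 h3
    have h4 := isoper h3
    rw [hN, hL] at h4
    obtain ⟨n, hn⟩ : ∃ n, n = r * 3 ^ (r - 1) := ⟨_, rfl⟩
    obtain ⟨a, ha⟩ : ∃ a, a = (supp t).card := ⟨_, rfl⟩
    rw [← hn] at h1 h4 hpos ⊢
    rw [← ha] at h1 h4 ⊢
    have h5 : a * (4 * n) ≤ a * (6 * n - a) := Nat.mul_le_mul_left _ (by omega)
    have h6 : 24 * r * (3 * n) * W.card ≤ 24 * r * (3 * n) * 3 ^ (r - 4) :=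
      Nat.mul_le_mul_left _ h2
    have h7 : 27 * r * 3 ^ (r - 4) = n := by
      rw [hn]
      obtain ⟨q, hq⟩ := Nat.exists_eq_add_of_le' hr
      have e1 : r - 4 = q := by omega
      have e2 : r - 1 = q + 3 := by omega
      rw [e1, e2, pow_add]
      ring
    have h8 : 24 * r * (3 * n) * 3 ^ (r - 4) ≤ n * (4 * n) := by
      calc 24 * r * (3 * n) * 3 ^ (r - 4) = (18 * r * 3 ^ (r - 4)) * (4 * n) := by ring
        _ ≤ (27 * r * 3 ^ (r - 4)) * (4 * n) := by
          refine Nat.mul_le_mul_right _ (Nat.mul_le_mul_right _ (Nat.mul_le_mul_right _ ?_))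
          norm_num
        _ = _ := by rw [h7]
    exact Nat.le_of_mul_le_mul_right (h5.trans (h4.trans (h6.trans h8))) (by omega)
  · intro t h1 h2
    have h3 := isoper (W := ∅) fun e _ => h2 e
    rw [Finset.card_empty, mul_zero, Nat.le_zero, Nat.mul_eq_zero] at h3
    rcases h3 with h4 | h4
    · funext v
      by_contra h
      have : v ∈ supp t := mem_supp.2 h
      rw [Finset.card_eq_zero.1 h4] at this
      exact absurd this (Finset.notMem_empty v)
    · rw [hN] at h4
      omega

end Pool.Agent.Y598.CG
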