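import Pool.Agent.Y598.VT.FamWL
import Pool.Agent.Y598.CG.Lamp
import Pool.Agent.Y598.VT.Cfi

/-!
# Cayley graphs with large Weisfeiler-Leman dimension
-/

set_option autoImplicit false
set_option linter.unusedSectionVars false

namespace Pool.Agent.Y598.CG

open Finset Pool.Agent.Y598.IM Pool.Agent.W185.SRG Pool.Agent.Y598.VT

variable {r : ℕ} [NeZero r]

theorem one_ne' (hr : 3 ≤ r) : (1 : ZMod r) ≠ 0 ∧ (1 : ZMod r) ≠ -1 := by
  constructor
  · intro h
    have h1 : ((1 : ℕ) : ZMod r) = 0 := by exact_mod_cast h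
    rw [ZMod.natCast_eq_zero_iff] at h1
    have := Nat.le_of_dvd (by norm_num) h1
    omega
  · intro h
    have h1 : ((2 : ℕ) : ZMod r) = 0 := by
      push_cast
      linear_combination h
    rw [ZMod.natCast_eq_zero_iff] at h1
    have := Nat.le_of_dvd (by norm_num) h1
    omega

theorem inv3_s (j : Fin 3) : (inv3 j : Lp r).s = true := by
  rcases fin3 j with rfl | rfl | rfl <;> rfl

/-- The `i`-component of a product of two involutions. -/
theorem prod_i (j l : Fin 3) :
    ((inv3 j : Lp r) * inv3 l).i = (inv3 j : Lp r).i - (inv3 l : Lp r).i := by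
  rw [Lp.mul_def, inv3_s]
  rfl

theorem prod_x (j l : Fin 3) :
    ((inv3 j : Lp r) * inv3 l).x 0 =
      (inv3 j : Lp r).x 0 - (inv3 l : Lp r).x ((inv3 j : Lp r).i - 0) := by
  rw [Lp.mul_def, inv3_s]
  rfl

theorem i0 : (inv3 0 : Lp r).i = 0 := rfl
theorem i1 : (inv3 1 : Lp r).i = 0 := rfl
theorem i2 : (inv3 2 : Lp r).i = 1 := rfl
theorem x0 (l : ZMod r) : (inv3 0 : Lp r).x l = 0 := rfl
theorem x1 : (inv3 1 : Lp r).x 0 = 1 := un_self 0 1
theorem x2 (l : ZMod r) : (inv3 2 : Lp r).x l = 0 := rfl

theorem prod_ne (hr : 3 ≤ r) (j l j' l' : Fin 3)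
    (h : (inv3 j : Lp r) * inv3 l = inv3 j' * inv3 l') (hl : l ≠ j) (hl' : l' ≠ j')
    (hjj : j.1 < j'.1) : False := by
  obtain ⟨n1, n2⟩ := one_ne' (r := r) hr
  have hi := congrArg Lp.i h
  have hx := congrFun (congrArg Lp.x h) 0
  rw [prod_i, prod_i] at hi
  rw [prod_x, prod_x] at hx
  rcases fin3 j with rfl | rfl | rfl <;> rcases fin3 j' with rfl | rfl | rfl <;>
    simp only [Fin.val_zero, Fin.val_one, Fin.val_two] at hjj <;> try omega
  · -- 0, 1
    rw [i0, i1] at hi
    rw [i0, i1, x0, x1, sub_zero] at hx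
    rcases fin3 l with rfl | rfl | rfl
    · exact hl rfl
    · rcases fin3 l' with rfl | rfl | rfl
      · rw [x1, x0] at hx
        revert hx
        decide
      · exact hl' rfl
      · rw [i1, i2] at hi
        exact n1 (by linear_combination hi)
    · rcases fin3 l' with rfl | rfl | rfl
      · rw [i2, i0] at hi
        exact n1 (by linear_combination -hi)
      · exact hl' rfl
      · rw [x2] at hx
        revert hx
        decide
  · -- 0, 2
    rw [i0, i2] at hi
    rcases fin3 l with rfl | rfl | rfl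
    · exact hl rfl
    · rcases fin3 l' with rfl | rfl | rfl
      · rw [i1, i0] at hi
        exact n1 (by linear_combination -hi)
      · rw [i1] at hi
        exact n1 (by linear_combination -hi)
      · exact hl' rfl
    · rcases fin3 l' with rfl | rfl | rfl
      · rw [i2, i0] at hi
        exact n2 (by linear_combination -hi)
      · rw [i2, i1] at hi
        exact n2 (by linear_combination -hi)
      · exact hl' rfl
  · -- 1, 2
    rw [i1, i2] at hi
    rcases fin3 l with rfl | rfl | rfl
    · rcases fin3 l' with rfl | rfl | rfl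
      · rw [i0] at hi
        exact n1 (by linear_combination -hi)
      · rw [i0, i1] at hi
        exact n1 (by linear_combination -hi)
      · exact hl' rfl
    · exact hl rfl
    · rcases fin3 l' with rfl | rfl | rfl
      · rw [i2, i0] at hi
        exact n2 (by linear_combination -hi)
      · rw [i2, i1] at hi
        exact n2 (by linear_combination -hi)
      · exact hl' rfl

theorem two_steps (hr : 3 ≤ r) (v : Lp r) (j l j' l' : Fin 3)
    (h : nb (nb v j) l = nb (nb v j') l') (hl : l ≠ j) (hl' : l' ≠ j') : j = j' := by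
  unfold nb at h
  rw [mul_assoc, mul_assoc] at h
  have h1 := mul_left_cancel h
  rcases lt_trichotomy j.1 j'.1 with h4 | h4 | h4
  · exact (prod_ne hr j l j' l' h1 hl hl' h4).elim
  · exact Fin.ext h4
  · exact (prod_ne hr j' l' j l h1.symm hl' hl h4).elim

theorem nb_inj (hr : 3 ≤ r) (v : Lp r) (j l : Fin 3) (h : nb v j = nb v l) : j = l := by
  obtain ⟨n1, n2⟩ := one_ne' (r := r) hr
  have key : ∀ j l : Fin 3, (inv3 j : Lp r) = inv3 l → j.1 < l.1 → False := by
    intro j l h hjl
    rcases fin3 j with rfl | rfl | rfl <;> rcases fin3 l with rfl | rfl | rfl <;>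
      simp only [Fin.val_zero, Fin.val_one, Fin.val_two] at hjl <;> try omega
    · have h1 := congrFun (congrArg Lp.x h) 0
      rw [x0, x1] at h1
      revert h1
      decide
    · exact n1 (congrArg Lp.i h).symm
    · exact n1 (congrArg Lp.i h).symm
  have h1 : (inv3 j : Lp r) = inv3 l := mul_left_cancel h
  rcases lt_trichotomy j.1 l.1 with h4 | h4 | h4
  · exact (key j l h1 h4).elim
  · exact Fin.ext h4
  · exact (key l j h1.symm h4).elim

/-- The Cayley graph with ports. -/
def prt (hr : 3 ≤ r) : Ports (Lp r) where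
  nb := nb
  rv := id
  nb_nb := nb_nb
  rv_rv _ := rfl
  nb_inj := nb_inj hr
  nb_ne := nb_ne
  sq v w j j' l l' hvw h h' := by
    have h1 : nb (nb v j) l = w := by rw [h, nb_nb]
    have h2 : nb (nb v j') l' = w := by rw [h', nb_nb]
    refine two_steps hr v j l j' l' (h1.trans h2.symm) ?_ ?_
    · intro h3
      apply hvw
      rw [← h1, h3, nb_nb]
    · intro h3
      apply hvw
      rw [← h2, h3, nb_nb]

/-! ### The local isomorphisms -/

/-- The vectors which vanish on `W`. -/
def NV (W : Finset (Ed r)) : AddSubgroup (Ed r → ZMod 2) where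
  carrier := {M | ∀ w ∈ W, M w = 0}
  add_mem' := by
    intro M M' h h' w hw
    rw [Pi.add_apply, h w hw, h' w hw, add_zero]
  zero_mem' := fun w _ => rfl
  neg_mem' := by
    intro M h w hw
    rw [Pi.neg_apply, h w hw, neg_zero]

/-- The homogeneous local solutions. -/
def DV (n : ℕ) (W : Finset (Ed r)) : AddSubgroup (Ed r → ZMod 2) where
  carrier := {M | Good n inc 0 W M}
  add_mem' := by
    intro M M' h h'
    have := Good.add h h'
    rwa [add_zero] at this
  zero_mem' := good_zero W
  neg_mem' := by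
    intro M h
    have := Good.neg h
    rwa [neg_zero] at this

/-- The shift of the vertices. -/
def sh (M : Ed r → ZMod 2) (x : Cv (Lp r)) : Cv (Lp r) :=
  (x.1, (x.2.1 + M (ed x.1 1), x.2.2 + M (ed x.1 2)))

theorem sh_zero (x : Cv (Lp r)) : sh 0 x = x := by
  unfold sh
  simp only [Pi.zero_apply, add_zero]

theorem sh_add (M M' : Ed r → ZMod 2) (x : Cv (Lp r)) : sh (M + M') x = sh M (sh M' x) := by
  unfold sh
  simp only [Pi.add_apply]
  refine Prod.ext rfl (Prod.ext ?_ ?_)
  · show x.2.1 + (M (ed x.1 1) + M' (ed x.1 1)) = x.2.1 + M' (ed x.1 1) + M (ed x.1 1)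
    ring
  · show x.2.2 + (M (ed x.1 2) + M' (ed x.1 2)) = x.2.2 + M' (ed x.1 2) + M (ed x.1 2)
    ring

/-- The shift as a permutation. -/
def shV (M : Ed r → ZMod 2) : Cv (Lp r) ≃ Cv (Lp r) where
  toFun := sh M
  invFun := sh (-M)
  left_inv u := by rw [← sh_add, neg_add_cancel, sh_zero]
  right_inv u := by rw [← sh_add, add_neg_cancel, sh_zero]

/-- The level of a vertex. -/
noncomputable def lvV (x : Cv (Lp r)) : Finset (Ed r) := {ed x.1 1, ed x.1 2}

/-- Local solutions preserve the adjacency. -/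
theorem sh_adj (hr : 3 ≤ r) {n : ℕ} (hn : 2 ≤ n) {b b' : Lp r → ZMod 2} {x y : Cv (Lp r)}
    {M : Ed r → ZMod 2} (hM : Good n inc (b' - b) (lvV x ∪ lvV y) M) :
    (cfi (prt hr) b).Adj x y ↔ (cfi (prt hr) b').Adj (sh M x) (sh M y) := by
  rw [cfi_adj, cfi_adj]
  refine exists_congr fun j => and_congr_right fun hj => ?_
  have hj' : nb x.1 j = y.1 := hj
  have hrv : (prt hr).rv = id := rfl
  rw [hrv, id]
  have hed : ed y.1 j = ed x.1 j := by rw [← hj', ed_nb]
  rcases fin3 j with rfl | rfl | rfl
  · rw [val_zero, val_zero, val_zero, val_zero]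
    have h1 := hM (Pi.single x.1 1 + Pi.single y.1 1) (by
      refine (supp_add _ _).trans ?_
      have e1 := supp_single (F := ZMod 2) x.1 1
      have e2 := supp_single (F := ZMod 2) y.1 1
      omega) (by
      intro e he
      rw [Zr_add, Zr_single, Zr_single]
      rw [Finset.mem_union] at he
      push Not at he
      obtain ⟨hex, hey⟩ := he
      have a1 : e ≠ ed x.1 1 := fun h => hex (by rw [h]; exact Finset.mem_insert_self _ _)
      have a2 : e ≠ ed x.1 2 := fun h => hex (by
        rw [h]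
        exact Finset.mem_insert_of_mem (Finset.mem_singleton_self _))
      have a3 : e ≠ ed y.1 1 := fun h => hey (by rw [h]; exact Finset.mem_insert_self _ _)
      have a4 : e ≠ ed y.1 2 := fun h => hey (by
        rw [h]
        exact Finset.mem_insert_of_mem (Finset.mem_singleton_self _))
      obtain ⟨q, l⟩ := e
      have b1 : ed x.1 l = (q, l) ↔ ed y.1 l = (q, l) := by
        rcases fin3 l with rfl | rfl | rfl
        · rw [hed]
        · exact ⟨fun h => absurd h.symm a1, fun h => absurd h.symm a3⟩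
        · exact ⟨fun h => absurd h.symm a2, fun h => absurd h.symm a4⟩
      unfold inc
      rw [if_congr b1 rfl rfl]
      exact CharTwo.add_self_eq_zero _)
    have h2 : ∑ v, (Pi.single x.1 (1 : ZMod 2) + Pi.single y.1 (1 : ZMod 2) : Lp r → ZMod 2) v *
        (∑ e, inc v e * M e - (b' - b) v) =
        (M (ed x.1 0) + M (ed x.1 1) + M (ed x.1 2) - (b' x.1 - b x.1)) +
        (M (ed y.1 0) + M (ed y.1 1) + M (ed y.1 2) - (b' y.1 - b y.1)) := by
      simp only [Pi.add_apply, add_mul]
      rw [Finset.sum_add_distrib]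
      congr 1
      · rw [Finset.sum_eq_single x.1]
        · rw [Pi.single_eq_same, one_mul, inc_sum, Fin.sum_univ_three]
          rfl
        · intro w _ hw
          rw [Pi.single_eq_of_ne hw, zero_mul]
        · intro h
          exact absurd (Finset.mem_univ _) h
      · rw [Finset.sum_eq_single y.1]
        · rw [Pi.single_eq_same, one_mul, inc_sum, Fin.sum_univ_three]
          rfl
        · intro w _ hw
          rw [Pi.single_eq_of_ne hw, zero_mul]
        · intro h
          exact absurd (Finset.mem_univ _) h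
    rw [h2, hed] at h1
    show b x.1 + x.2.1 + x.2.2 = b y.1 + y.2.1 + y.2.2 ↔
      b' x.1 + (x.2.1 + M (ed x.1 1)) + (x.2.2 + M (ed x.1 2)) =
        b' y.1 + (y.2.1 + M (ed y.1 1)) + (y.2.2 + M (ed y.1 2))
    generalize b x.1 = p1 at *
    generalize b y.1 = p2 at *
    generalize b' x.1 = p3 at *
    generalize b' y.1 = p4 at *
    generalize M (ed x.1 1) = m1 at *
    generalize M (ed x.1 2) = m2 at *
    generalize M (ed y.1 1) = m3 at *
    generalize M (ed y.1 2) = m4 at *
    generalize M (ed x.1 0) = m0 at *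
    generalize x.2.1 = x1 at *
    generalize x.2.2 = x2 at *
    generalize y.2.1 = y1 at *
    generalize y.2.2 = y2 at *
    have h3 : m0 + m0 = 0 := CharTwo.add_self_eq_zero _
    have h4 : (p3 - p1) + m1 + m2 + ((p4 - p2) + m3 + m4) = 0 := by
      have e1 : p3 - p1 + (p3 - p1) = 0 := CharTwo.add_self_eq_zero _
      have e2 : p4 - p2 + (p4 - p2) = 0 := CharTwo.add_self_eq_zero _
      linear_combination h1 - h3 + e1 + e2
    have h5 : (p4 - p2 + m3 + m4) = (p3 - p1) + m1 + m2 := by
      have e1 : (p4 - p2 + m3 + m4) + (p4 - p2 + m3 + m4) = 0 := CharTwo.add_self_eq_zero _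
      linear_combination e1 - h4
    constructor
    · intro h
      linear_combination h - h5
    · intro h
      linear_combination h + h5
  · rw [val_one, val_one, val_one, val_one]
    show x.2.1 = y.2.1 ↔ x.2.1 + M (ed x.1 1) = y.2.1 + M (ed y.1 1)
    rw [hed, add_left_inj]
  · rw [val_two, val_two, val_two, val_two]
    show x.2.2 = y.2.2 ↔ x.2.2 + M (ed x.1 2) = y.2.2 + M (ed y.1 2)
    rw [hed, add_left_inj]

/-- The family of the graphs. -/
noncomputable def cFam (hr : 3 ≤ r) {n K : ℕ} (hn : 2 ≤ n) (hE : LE n K (inc (r := r)))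
    (bb : Bool → Lp r → ZMod 2)
    (hinj : Function.Injective fun b => (cfi (prt hr) (bb b)).Adj) :
    Fam (Ed r → ZMod 2) (Finset (Ed r)) (Cv (Lp r)) Bool where
  N := NV
  D := DV n
  Sol b b' W := {M | Good n inc (bb b' - bb b) W M}
  size W := W.card
  K := K
  N_anti W W' h M hM w hw := hM w (h hw)
  N_sup W W' M hM w hw := by
    rcases Finset.mem_union.1 hw with h | h
    · exact hM.1 w h
    · exact hM.2 w h
  N_bot := by
    rw [eq_top_iff]
    intro M _ w hw
    exact absurd hw (Finset.notMem_empty w)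
  Sol_anti b b' W W' h M hM := Good.mono h hM
  sol_D b W M := by
    show Good n inc (bb b - bb b) W M ↔ Good n inc 0 W M
    rw [sub_self]
  neg_mem b b' W M hM := by
    have := Good.neg (show Good n inc (bb b' - bb b) W M from hM)
    rwa [neg_sub] at this
  add_mem b b' b'' W M M' hM hM' := by
    have := Good.add (show Good n inc (bb b' - bb b) W M from hM)
      (show Good n inc (bb b'' - bb b') W M' from hM')
    have h1 : bb b' - bb b + (bb b'' - bb b') = bb b'' - bb b := by abel
    rwa [h1] at this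
  size_bot := Finset.card_empty
  size_mono W W' h := Finset.card_le_card h
  size_sup W W' := Finset.card_union_le _ _
  bot_sol b b' := ⟨0, good_empty hE _ 0⟩
  extend b b' W W' hWW hW' M hM := by
    obtain ⟨M', hM', hag⟩ := Good.extend hE hW' hM
    refine ⟨M', hM', fun w hw => ?_⟩
    rw [Pi.sub_apply, hag w hw, sub_self]
  act := shV
  act_zero u := sh_zero u
  act_add M M' u := sh_add M M' u
  lv := lvV
  lv_act M u := rfl
  fix M x hM := by
    show (x.1, (x.2.1 + M (ed x.1 1), x.2.2 + M (ed x.1 2))) = x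
    rw [hM _ (Finset.mem_insert_self _ _),
      hM _ (Finset.mem_insert_of_mem (Finset.mem_singleton_self _)), add_zero, add_zero]
  faithful M x hM := by
    have h1 : x.2.1 + M (ed x.1 1) = x.2.1 := congrArg (fun q : Cv (Lp r) => q.2.1) hM
    have h2 : x.2.2 + M (ed x.1 2) = x.2.2 := congrArg (fun q : Cv (Lp r) => q.2.2) hM
    intro w hw
    have hw' : w ∈ ({ed x.1 1, ed x.1 2} : Finset (Ed r)) := hw
    rw [Finset.mem_insert, Finset.mem_singleton] at hw'
    rcases hw' with rfl | rfl
    · exact add_eq_left.1 h1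
    · exact add_eq_left.1 h2
  c := 2
  size_lv x := Finset.card_le_two
  G b := (cfi (prt hr) (bb b)).Adj
  G_inj := hinj
  adj b b' x y M hM := sh_adj hr hn hM

/-! ### The group -/

/-- The group: the product of the group of the nodes with a group of order four. -/
abbrev Gr (r : ℕ) : Type := Lp r × Multiplicative (ZMod 2 × ZMod 2)

/-- The graphs as graphs on the group. -/
def gph (hr : 3 ≤ r) (b : Lp r → ZMod 2) : SimpleGraph (Gr r) := cfi (prt hr) b

/-- Left multiplication. -/
def lm (z x : Cv (Lp r)) : Cv (Lp r) := (z.1 * x.1, (z.2.1 + x.2.1, z.2.2 + x.2.2))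

theorem val_lm {b : Lp r → ZMod 2} (hb : ∀ g h, b (g * h) = b g + b h) (z x : Cv (Lp r))
    (j : Fin 3) : val b (lm z x) j = val b z j + val b x j := by
  rcases fin3 j with rfl | rfl | rfl
  · rw [val_zero, val_zero, val_zero]
    show b (z.1 * x.1) + (z.2.1 + x.2.1) + (z.2.2 + x.2.2) = _
    rw [hb]
    ring
  · rfl
  · rfl

theorem lm_adj (hr : 3 ≤ r) {b : Lp r → ZMod 2} (hb : ∀ g h, b (g * h) = b g + b h)
    (z x y : Cv (Lp r)) :
    (cfi (prt hr) b).Adj (lm z x) (lm z y) ↔ (cfi (prt hr) b).Adj x y := by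
  rw [cfi_adj, cfi_adj]
  have hrv : ∀ j, (prt hr).rv j = j := fun _ => rfl
  refine exists_congr fun j => and_congr ?_ ?_
  · show z.1 * x.1 * inv3 j = z.1 * y.1 ↔ x.1 * inv3 j = y.1
    rw [mul_assoc]
    exact mul_right_inj z.1
  · rw [val_lm hb, val_lm hb, hrv]
    exact add_right_inj _

theorem gph_mul (hr : 3 ≤ r) (b : Lp r → ZMod 2) (hb : ∀ g h, b (g * h) = b g + b h)
    (z x y : Gr r) : (gph hr b).Adj (z * x) (z * y) ↔ (gph hr b).Adj x y :=
  lm_adj hr hb z x y

/-- The twist. -/
def tw (c : Bool) (g : Lp r) : ZMod 2 := if c && g.s then 1 else 0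

theorem tw_mul (c : Bool) (g h : Lp r) : tw c (g * h) = tw c g + tw c h := by
  unfold tw
  have h1 : (g * h).s = xor g.s h.s := rfl
  rw [h1]
  cases c <;> cases g.s <;> cases h.s <;> decide

theorem sum_tw (hodd : r % 2 = 1) : ∑ v : Lp r, tw true v = 1 := by
  classical
  rw [← Equiv.sum_comp Lp.equiv.symm, Fintype.sum_prod_type]
  have h1 : ∀ q : Ld r, ∑ s : Bool, tw true (Lp.equiv.symm (q, s)) = 1 := by
    intro q
    rw [Fintype.sum_bool]
    show (1 : ZMod 2) + 0 = 1
    rw [add_zero]
  simp only [h1]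
  rw [Finset.sum_const, Finset.card_univ, card_Ld, nsmul_eq_mul, mul_one]
  have h2 : (r * 3 ^ r) % 2 = 1 := by
    rw [Nat.mul_mod, hodd, Nat.pow_mod]
    norm_num
  have h3 : ((r * 3 ^ r : ℕ) : ZMod 2) = ((1 : ℕ) : ZMod 2) := by
    rw [ZMod.natCast_eq_natCast_iff']
    exact h2
  rw [h3, Nat.cast_one]

end Pool.Agent.Y598.CG
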