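import Pool.Agent.Y598.CG.Main

/-!
# Vertex-transitive and other graphs
-/

set_option autoImplicit false
set_option linter.unusedSectionVars false

namespace Pool.Agent.Y598.IM.Fam

open Pool.Agent.Y598.IM

variable {X L V W B : Type} [AddCommGroup X] [SemilatticeSup L] [OrderBot L]

/-- The disjoint union of a relation with a relation. -/
def sumRel (A : W → W → Prop) (A' : V → V → Prop) : W ⊕ V → W ⊕ V → Prop
  | Sum.inl u, Sum.inl v => A u v
  | Sum.inr u, Sum.inr v => A' u v
  | _, _ => False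

/-- The family with a fixed graph added as a disjoint union. -/
def addFixed (F : Fam X L V B) (A : W → W → Prop) : Fam X L (W ⊕ V) B where
  N := F.N
  D := F.D
  Sol := F.Sol
  size := F.size
  K := F.K
  N_anti := F.N_anti
  N_sup := F.N_sup
  N_bot := F.N_bot
  Sol_anti := F.Sol_anti
  sol_D := F.sol_D
  neg_mem := F.neg_mem
  add_mem := F.add_mem
  size_bot := F.size_bot
  size_mono := F.size_mono
  size_sup := F.size_sup
  bot_sol := F.bot_sol
  extend := F.extend
  act M := (Equiv.refl W).sumCongr (F.act M)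
  act_zero := by
    rintro (u | u)
    · rfl
    · exact congrArg Sum.inr (F.act_zero u)
  act_add M M' := by
    rintro (u | u)
    · rfl
    · exact congrArg Sum.inr (F.act_add M M' u)
  lv := Sum.elim (fun _ => ⊥) F.lv
  lv_act M := by
    rintro (u | u)
    · rfl
    · exact F.lv_act M u
  fix n := by
    rintro (u | u) h
    · rfl
    · exact congrArg Sum.inr (F.fix n u h)
  faithful n := by
    rintro (u | u) h
    · show n ∈ F.N ⊥
      rw [F.N_bot]
      trivial
    · exact F.faithful n u (Sum.inr_injective h)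
  c := F.c
  size_lv := by
    rintro (u | u)
    · show F.size ⊥ ≤ F.c
      rw [F.size_bot]
      exact Nat.zero_le _
    · exact F.size_lv u
  G b := sumRel A (F.G b)
  G_inj b b' h := by
    refine F.G_inj ?_
    funext u v
    exact congrFun (congrFun h (Sum.inr u)) (Sum.inr v)
  adj b b' := by
    rintro (u | u) (v | v) M hM
    · exact Iff.rfl
    · exact Iff.rfl
    · exact Iff.rfl
    · exact F.adj b b' u v M hM

end Pool.Agent.Y598.IM.Fam

namespace Pool.Agent.Y598.CG

open Finset Pool.Agent.Y598.IM Pool.Agent.W185.SRG Pool.Agent.Y598.VT SimpleGraph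

theorem sum_adj {V W : Type} (G : SimpleGraph W) (H : SimpleGraph V) :
    (G ⊕g H).Adj = Fam.sumRel G.Adj H.Adj := by
  funext x y
  rcases x with x | x <;> rcases y with y | y
  · rfl
  · exact propext ⟨fun h => absurd h (by simp), fun h => h.elim⟩
  · exact propext ⟨fun h => absurd h (by simp), fun h => h.elim⟩
  · rfl

/-- An automorphism of a disjoint union which moves a vertex from the first connected graph to the
second one yields an isomorphism. -/
theorem no_swap {V : Type} [Finite V] {G H : SimpleGraph V}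
    (hc : ∀ T : V → Prop, (∀ x y, G.Adj x y → T x → T y) → ∀ x y, T x → T y)
    (hGH : IsEmpty (G ≃g H)) (x y : V) (φ : (G ⊕g H) ≃g (G ⊕g H)) : φ (Sum.inl x) ≠ Sum.inr y := by
  intro h
  have h1 : ∀ u, ∃ v, φ (Sum.inl u) = Sum.inr v := by
    intro u
    refine hc (fun u => ∃ v, φ (Sum.inl u) = Sum.inr v) ?_ x u ⟨y, h⟩
    rintro a b hab ⟨v, hv⟩
    have h2 : (G ⊕g H).Adj (φ (Sum.inl a)) (φ (Sum.inl b)) := φ.map_adj_iff.2 hab
    rcases hb : φ (Sum.inl b) with w | w
    · rw [hv, hb] at h2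
      simp at h2
    · exact ⟨w, rfl⟩
  choose f hf using h1
  have hinj : Function.Injective f := by
    intro a b hab
    have h2 : φ (Sum.inl a) = φ (Sum.inl b) := by rw [hf, hf, hab]
    exact Sum.inl_injective (φ.injective h2)
  have hbij : Function.Bijective f := Finite.injective_iff_bijective.1 hinj
  refine hGH.false ⟨Equiv.ofBijective f hbij, ?_⟩
  intro a b
  have h2 : (G ⊕g H).Adj (φ (Sum.inl a)) (φ (Sum.inl b)) ↔ (G ⊕g H).Adj (Sum.inl a) (Sum.inl b) :=
    φ.map_adj_iff
  rw [hf, hf] at h2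
  exact h2

/-- Left multiplications. -/
def mulIso {Γ : Type} [Group Γ] (S : Set Γ) (z : Γ) : mulCayley S ≃g mulCayley S where
  toEquiv := Equiv.mulLeft z
  map_rel_iff' := mulCayley_adj_mul_iff_right

theorem sum_transitive {Γ : Type} [Group Γ] (S : Set Γ) (x y : Γ ⊕ Γ) :
    ∃ φ : (mulCayley S ⊕g mulCayley S) ≃g (mulCayley S ⊕g mulCayley S), φ x = y := by
  rcases x with x | x <;> rcases y with y | y
  · refine ⟨Iso.sumCongr (mulIso S (y * x⁻¹)) (RelIso.refl _), ?_⟩
    show Sum.inl (y * x⁻¹ * x) = Sum.inl y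
    rw [inv_mul_cancel_right]
  · refine ⟨(Iso.sumCongr (mulIso S (y * x⁻¹)) (RelIso.refl _)).trans Iso.sumComm, ?_⟩
    show Sum.inr (y * x⁻¹ * x) = Sum.inr y
    rw [inv_mul_cancel_right]
  · refine ⟨(Iso.sumCongr (RelIso.refl _) (mulIso S (y * x⁻¹))).trans Iso.sumComm, ?_⟩
    show Sum.inl (y * x⁻¹ * x) = Sum.inl y
    rw [inv_mul_cancel_right]
  · refine ⟨Iso.sumCongr (RelIso.refl _) (mulIso S (y * x⁻¹)), ?_⟩
    show Sum.inr (y * x⁻¹ * x) = Sum.inr y
    rw [inv_mul_cancel_right]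

/-- A graph which is invariant under left multiplication is a Cayley graph. -/
theorem eq_mulCayley {Γ : Type} [Group Γ] (G : SimpleGraph Γ)
    (h : ∀ z x y : Γ, G.Adj (z * x) (z * y) ↔ G.Adj x y) : G = mulCayley {z | G.Adj 1 z} := by
  have h1 : ∀ x y : Γ, G.Adj x y ↔ G.Adj 1 (x⁻¹ * y) := by
    intro x y
    rw [← h x⁻¹ x y, inv_mul_cancel]
  ext x y
  rw [mulCayley_adj]
  show G.Adj x y ↔ x ≠ y ∧ (G.Adj 1 (x⁻¹ * y) ∨ G.Adj 1 (y⁻¹ * x))
  rw [← h1, ← h1]
  constructor
  · exact fun h2 => ⟨h2.ne, Or.inl h2⟩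
  · rintro ⟨_, h2 | h2⟩
    · exact h2
    · exact h2.symm

variable {r : ℕ} [NeZero r]

/-- The base graph is connected. -/
theorem base_conn (T : Lp r → Prop) (h : ∀ v j, T v ↔ T (nb v j)) (u v : Lp r)
    (hu : T u) : T v := by
  classical
  let t : Lp r → ZMod 2 := fun v => if T v then 1 else 0
  have h0 : ∀ e, e ∉ (∅ : Finset (Ed r)) → Zr inc t e = 0 := by
    rintro ⟨⟨x, i⟩, j⟩ _
    rw [← ed_f, Zr_inc]
    have h1 : t (nb ⟨x, i, false⟩ j) = t ⟨x, i, false⟩ := by
      show (if T (nb ⟨x, i, false⟩ j) then (1 : ZMod 2) else 0) = if T ⟨x, i, false⟩ then 1 else 0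
      exact if_congr (h _ j).symm rfl rfl
    rw [h1]
    exact CharTwo.add_self_eq_zero _
  have h1 := isoper h0
  rw [Finset.card_empty, mul_zero, Nat.le_zero, Nat.mul_eq_zero] at h1
  have h2 : u ∈ supp t := mem_supp.2 (by
    show (if T u then (1 : ZMod 2) else 0) ≠ 0
    rw [if_pos hu]
    exact one_ne_zero)
  rcases h1 with h3 | h3
  · rw [Finset.card_eq_zero.1 h3] at h2
    exact absurd h2 (Finset.notMem_empty _)
  · have h4 : supp t = Finset.univ := by
      rw [← Finset.card_eq_iff_eq_univ]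
      exact le_antisymm (Finset.card_le_univ _) (Nat.sub_eq_zero_iff_le.1 h3)
    have h5 : v ∈ supp t := by
      rw [h4]
      exact Finset.mem_univ _
    by_contra h7
    have h6 : t v = 0 := if_neg h7
    exact mem_supp.1 h5 h6

/-- The graphs are connected. -/
theorem cfi_conn (hr : 3 ≤ r) (b : Lp r → ZMod 2) (T : Cv (Lp r) → Prop)
    (h : ∀ x y, (cfi (prt hr) b).Adj x y → T x → T y) (x y : Cv (Lp r)) (hx : T x) : T y := by
  have h1 : ∀ x y : Cv (Lp r), x.1 = y.1 → T x → T y := by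
    intro x y hxy hx
    obtain ⟨z, _, _, h1, _, h2, _⟩ := (fibre_iff (prt hr) (b := b)).1 hxy
    exact h _ _ h2.symm (h _ _ h1 hx)
  have h2 : ∀ v j, T (v, 0) → T (nb v j, 0) := by
    intro v j hv
    obtain ⟨z, _, _, h3, _, h4, _⟩ := exists_val b (nb v j) j (val b (v, 0) j)
    have h5 : (cfi (prt hr) b).Adj (v, 0) z := ⟨j, h3.symm, h4.symm⟩
    exact h1 z _ h3 (h _ _ h5 hv)
  have h3 : T (y.1, 0) := by
    refine base_conn (fun v => T (v, 0)) ?_ x.1 y.1 (h1 x _ rfl hx)
    intro v j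
    refine ⟨h2 v j, fun h4 => ?_⟩
    have h5 := h2 _ j h4
    rwa [nb_nb] at h5
  exact h1 (y.1, 0) y rfl h3

/-- The neighbours of the unit element. -/
def star (b : Lp r → ZMod 2) (q : Fin 3 × ZMod 2) : Gr r :=
  (inv3 q.1, Multiplicative.ofAdd (if q.1 = 0 then (q.2, b 1 + b (inv3 0) + q.2)
    else if q.1 = 1 then (0, q.2) else (q.2, 0)))

theorem ncard_conn (hr : 3 ≤ r) (b : Lp r → ZMod 2) :
    {z : Gr r | (gph hr b).Adj 1 z}.ncard ≤ 6 := by
  classical
  have h1 : {z : Gr r | (gph hr b).Adj 1 z} ⊆ ((Finset.univ.image (star b) : Finset (Gr r)) :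
      Set (Gr r)) := by
    rintro z ⟨j, h1, h2⟩
    have e1 : inv3 j = z.1 := by
      have h3 : (1 : Lp r) * inv3 j = z.1 := h1
      rwa [one_mul] at h3
    rw [Finset.coe_image]
    rcases fin3 j with rfl | rfl | rfl
    · refine ⟨(0, (Multiplicative.toAdd z.2).1), Finset.mem_coe.2 (Finset.mem_univ _), ?_⟩
      have h3 : b 1 + 0 + 0 = b z.1 + (Multiplicative.toAdd z.2).1 +
        (Multiplicative.toAdd z.2).2 := h2
      refine Prod.ext e1 (Prod.ext rfl ?_)
      show b 1 + b (inv3 0) + (Multiplicative.toAdd z.2).1 = (Multiplicative.toAdd z.2).2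
      rw [e1]
      revert h3
      generalize b 1 = a1
      generalize b z.1 = a2
      generalize (Multiplicative.toAdd z.2).1 = a3
      generalize (Multiplicative.toAdd z.2).2 = a4
      revert a1 a2 a3 a4
      decide
    · refine ⟨(1, (Multiplicative.toAdd z.2).2), Finset.mem_coe.2 (Finset.mem_univ _), ?_⟩
      have h3 : (0 : ZMod 2) = (Multiplicative.toAdd z.2).1 := h2
      exact Prod.ext e1 (Prod.ext h3 rfl)
    · refine ⟨(2, (Multiplicative.toAdd z.2).1), Finset.mem_coe.2 (Finset.mem_univ _), ?_⟩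
      have h3 : (0 : ZMod 2) = (Multiplicative.toAdd z.2).2 := h2
      exact Prod.ext e1 (Prod.ext rfl h3)
  refine (Set.ncard_le_ncard h1 (Finset.finite_toSet _)).trans ?_
  rw [Set.ncard_coe_finset]
  refine Finset.card_image_le.trans ?_
  rw [Finset.card_univ, Fintype.card_prod, Fintype.card_fin, ZMod.card]

end Pool.Agent.Y598.CG
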